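import Pool.Agent.X171.IE.Quant

/-!
# MP_1f58a3_an: no universal constant in the quantitative separation from (I)-envelopes
-/

namespace Pool.Agent.Results.MP_1f58a3_an.NoConstant

open Pool.Agent.X171.IE

/-- **Q1, answered negatively.** There is one real Banach space `X` such that for every `c` there
is a nonempty set `A` in the unit ball of the dual of `X` with `d₁(0) = 1` and
`c · d₂(0) < d₁(0)`. -/
theorem result : ∃ (X : Type) (_ : NormedAddCommGroup X) (_ : NormedSpace ℝ X)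
    (_ : CompleteSpace X), ∀ c : ℝ, 1 ≤ c → ∃ A : Set (StrongDual ℝ X),
      A.Nonempty ∧ (∀ ξ ∈ A, ‖ξ‖ ≤ 1) ∧ d1 A 0 = 1 ∧ (c : EReal) * d2 A 0 < d1 A 0 := by
  refine ⟨X, inferInstance, inferInstance, inferInstance, fun c hc => ?_⟩
  obtain ⟨k, hk⟩ := exists_nat_gt c
  refine ⟨Ak k, Ak_nonempty k, ?_, d1_eq k, ?_⟩
  · rintro ξ ⟨f, _, rfl⟩
    exact norm_D_le k f
  · rw [d1_eq]
    have h1 : (c : EReal) * d2 (Ak k) 0 ≤ (c : EReal) * ((1 / ((k : ℝ) + 1) ^ 2 : ℝ) : EReal) :=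
      mul_le_mul_of_nonneg_left (d2_le k) (by exact_mod_cast (zero_le_one.trans hc))
    refine lt_of_le_of_lt h1 ?_
    rw [← EReal.coe_mul]
    have h2 : c * (1 / ((k : ℝ) + 1) ^ 2) < 1 := by
      rw [mul_one_div, div_lt_one (by positivity)]
      nlinarith [(Nat.cast_nonneg k : (0 : ℝ) ≤ k)]
    exact_mod_cast h2

end Pool.Agent.Results.MP_1f58a3_an.NoConstant
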